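import Pool.Agent.TH993.SP.Defs

/-!
# The parametrisation of the unit circle of a planar norm by the area

Job SP-PARAM of the project MP_c499fd_gt (case `d = 2`).
-/

set_option autoImplicit false

open MeasureTheory Set Real Pool.Agent.TH993.SP

namespace Pool.Agent.TH384.SPParam

noncomputable section

variable {N : ℝ × ℝ → ℝ}

lemma uv_ne (θ : ℝ) : uv θ ≠ 0 := by
  intro h
  have h1 : Real.cos θ = 0 := congrArg Prod.fst h
  have h2 : Real.sin θ = 0 := congrArg Prod.snd h
  have h3 := Real.sin_sq_add_cos_sq θ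
  rw [h1, h2] at h3
  norm_num at h3

lemma n_pos (hN : IsN N) (θ : ℝ) : 0 < N (uv θ) := hN.pos _ (uv_ne θ)

lemma uv_cont : Continuous uv := by
  unfold uv
  fun_prop

lemma n_cont (hN : IsN N) : Continuous fun θ => N (uv θ) := hN.cont.comp uv_cont

lemma N_neg (hN : IsN N) (u : ℝ × ℝ) : N (-u) = N u := by
  have h := hN.smul (-1) u
  simpa using h

lemma uv_pi (θ : ℝ) : uv (θ + π) = - uv θ := by
  simp [uv, Real.cos_add_pi, Real.sin_add_pi]

lemma n_pi (hN : IsN N) (θ : ℝ) : N (uv (θ + π)) = N (uv θ) := by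
  rw [uv_pi, N_neg hN]

lemma rd_cont (hN : IsN N) : Continuous (rd N) := by
  unfold rd
  exact ((n_cont hN).pow 2).inv₀ (fun θ => (pow_pos (n_pos hN θ) 2).ne')

lemma rd_pos (hN : IsN N) (θ : ℝ) : 0 < rd N θ := inv_pos.2 (pow_pos (n_pos hN θ) 2)

lemma rd_pi (hN : IsN N) (θ : ℝ) : rd N (θ + π) = rd N θ := by
  unfold rd
  rw [n_pi hN]

lemma rd_int (hN : IsN N) (a b : ℝ) : IntervalIntegrable (rd N) volume a b :=
  (rd_cont hN).intervalIntegrable a b

/-- the primitive of `rd N` -/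
def G (N : ℝ × ℝ → ℝ) (t : ℝ) : ℝ := ∫ u in (-π)..t, rd N u

lemma G_deriv (hN : IsN N) (t : ℝ) : HasDerivAt (G N) (rd N t) t :=
  intervalIntegral.integral_hasDerivAt_right (rd_int hN _ _)
    ((rd_cont hN).stronglyMeasurableAtFilter _ _) (rd_cont hN).continuousAt

lemma G_cont (hN : IsN N) : Continuous (G N) :=
  continuous_iff_continuousAt.2 fun t => (G_deriv hN t).continuousAt

lemma G_mono (hN : IsN N) : StrictMono (G N) :=
  strictMono_of_deriv_pos fun t => by
    rw [(G_deriv hN t).deriv]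
    exact rd_pos hN t

lemma G_sub (hN : IsN N) (s t : ℝ) : G N t - G N s = ∫ u in s..t, rd N u := by
  unfold G
  exact intervalIntegral.integral_interval_sub_left (rd_int hN _ _) (rd_int hN _ _)

/-- the half period -/
def hT (N : ℝ × ℝ → ℝ) : ℝ := ∫ u in (-π)..0, rd N u

lemma G_add_pi (hN : IsN N) (t : ℝ) : G N (t + π) = G N t + hT N := by
  have h1 := G_sub hN t (t + π)
  have hper : Function.Periodic (rd N) π := rd_pi hN
  have h2 := hper.intervalIntegral_add_eq t (-π)
  rw [show -π + π = (0 : ℝ) by ring] at h2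
  unfold hT
  linarith

lemma G_neg_pi : G N (-π) = 0 := by
  unfold G
  simp

lemma G_zero : G N 0 = hT N := rfl

lemma G_pi (hN : IsN N) : G N π = 2 * hT N := by
  have h := G_add_pi hN 0
  rw [zero_add, G_zero] at h
  linarith

lemma hT_pos (hN : IsN N) : 0 < hT N := by
  have h := G_mono hN (show -π < (0 : ℝ) by linarith [Real.pi_pos])
  rw [G_neg_pi, G_zero] at h
  exact h

/-- an upper bound for `N` on the circle -/
lemma n_le (hN : IsN N) : ∃ C : ℝ, 0 < C ∧ (∀ θ, N (uv θ) ≤ C) ∧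
    ∀ s t, N (uv t - uv s) ≤ C * |t - s| := by
  refine ⟨N (1, 0) + N (0, 1), ?_, ?_, ?_⟩
  · have h1 := hN.pos (1, 0) (by simp)
    have h2 := hN.pos (0, 1) (by simp)
    linarith
  · intro θ
    have h1 := hN.pos (1, 0) (by simp)
    have h2 := hN.pos (0, 1) (by simp)
    have e : uv θ = Real.cos θ • ((1 : ℝ), (0 : ℝ)) + Real.sin θ • ((0 : ℝ), (1 : ℝ)) := by
      simp [uv]
    have h3 := hN.add (Real.cos θ • ((1 : ℝ), (0 : ℝ))) (Real.sin θ • ((0 : ℝ), (1 : ℝ)))
    rw [← e, hN.smul, hN.smul] at h3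
    nlinarith [Real.abs_cos_le_one θ, Real.abs_sin_le_one θ]
  · intro s t
    have h1 := hN.pos (1, 0) (by simp)
    have h2 := hN.pos (0, 1) (by simp)
    have e : uv t - uv s = (Real.cos t - Real.cos s) • ((1 : ℝ), (0 : ℝ))
        + (Real.sin t - Real.sin s) • ((0 : ℝ), (1 : ℝ)) := by
      simp [uv]
    have h3 := hN.add ((Real.cos t - Real.cos s) • ((1 : ℝ), (0 : ℝ)))
      ((Real.sin t - Real.sin s) • ((0 : ℝ), (1 : ℝ)))
    rw [← e, hN.smul, hN.smul] at h3
    nlinarith [Real.abs_cos_sub_cos_le t s, Real.abs_sin_sub_sin_le t s]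

/-- a lower bound for `N` on the circle -/
lemma n_ge (hN : IsN N) : ∃ c : ℝ, 0 < c ∧ ∀ θ, c ≤ N (uv θ) := by
  obtain ⟨x, hx, hmin⟩ := isCompact_Icc.exists_isMinOn (nonempty_Icc.2 Real.pi_pos.le)
    (n_cont hN).continuousOn
  refine ⟨N (uv x), n_pos hN x, fun θ => ?_⟩
  have hper : Function.Periodic (fun θ => N (uv θ)) π := n_pi hN
  obtain ⟨y, hy, hxy⟩ := hper.exists_mem_Ico₀ Real.pi_pos θ
  have h : N (uv x) ≤ N (uv y) := hmin (Ico_subset_Icc_self hy)
  have hxy' : N (uv θ) = N (uv y) := hxy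
  rw [hxy']
  exact h

/-- `N` on the circle varies slowly -/
lemma n_near (hN : IsN N) : ∃ K : ℝ, 0 < K ∧ ∀ s u, N (uv u) ≤ (1 + K * |u - s|) * N (uv s) := by
  obtain ⟨C, hC, -, h1⟩ := n_le hN
  obtain ⟨c, hc, h2⟩ := n_ge hN
  refine ⟨C / c, by positivity, fun s u => ?_⟩
  have h3 := hN.add (uv s) (uv u - uv s)
  rw [add_sub_cancel] at h3
  have h4 := h1 s u
  have h5 : C * |u - s| ≤ C / c * |u - s| * N (uv s) := by
    have h6 := h2 s
    have h7 : C * |u - s| = C / c * |u - s| * c := by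
      field_simp
    rw [h7]
    exact mul_le_mul_of_nonneg_left h6 (by positivity)
  linarith

/-- the area of `N` -/
lemma rd_le_near {K s t u h : ℝ} (hN : IsN N) (hK : 0 < K)
    (hn : ∀ s u, N (uv u) ≤ (1 + K * |u - s|) * N (uv s)) (h1 : s ≤ u) (h2 : u ≤ t)
    (h3 : t - s ≤ h) :
    (N (uv s))⁻¹ * (N (uv t))⁻¹ ≤ (1 + K * h) ^ 2 * rd N u ∧
    rd N u ≤ (1 + K * h) ^ 2 * ((N (uv s))⁻¹ * (N (uv t))⁻¹) := by
  have ps := n_pos hN s
  have pt' := n_pos hN t
  have pu := n_pos hN u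
  have hh : 0 ≤ h := by linarith
  have e1 : |u - s| ≤ h := by rw [abs_of_nonneg (by linarith)]; linarith
  have e2 : |s - u| ≤ h := by rw [abs_of_nonpos (by linarith)]; linarith
  have e3 : |u - t| ≤ h := by rw [abs_of_nonpos (by linarith)]; linarith
  have e4 : |t - u| ≤ h := by rw [abs_of_nonneg (by linarith)]; linarith
  have a1 : N (uv u) ≤ (1 + K * h) * N (uv s) := (hn s u).trans (by gcongr)
  have a2 : N (uv s) ≤ (1 + K * h) * N (uv u) := (hn u s).trans (by gcongr)
  have a3 : N (uv u) ≤ (1 + K * h) * N (uv t) := (hn t u).trans (by gcongr)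
  have a4 : N (uv t) ≤ (1 + K * h) * N (uv u) := (hn u t).trans (by gcongr)
  have hq : 0 < 1 + K * h := by positivity
  constructor
  · unfold rd
    rw [← mul_inv, ← div_eq_mul_inv, inv_eq_one_div, div_le_div_iff₀ (by positivity) (by positivity)]
    calc 1 * N (uv u) ^ 2 = N (uv u) * N (uv u) := by ring
      _ ≤ ((1 + K * h) * N (uv s)) * ((1 + K * h) * N (uv t)) := by gcongr
      _ = (1 + K * h) ^ 2 * (N (uv s) * N (uv t)) := by ring
  · unfold rd
    rw [← mul_inv, ← div_eq_mul_inv, inv_eq_one_div, div_le_div_iff₀ (by positivity) (by positivity)]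
    calc 1 * (N (uv s) * N (uv t)) = N (uv s) * N (uv t) := by ring
      _ ≤ ((1 + K * h) * N (uv u)) * ((1 + K * h) * N (uv u)) := by gcongr
      _ = (1 + K * h) ^ 2 * N (uv u) ^ 2 := by ring

/-- the wedge of two points of the unit circle -/
lemma wd_pt (s t : ℝ) :
    wd (pt N s) (pt N t) = (N (uv s))⁻¹ * (N (uv t))⁻¹ * Real.sin (t - s) := by
  unfold wd pt uv
  simp only [Prod.smul_fst, Prod.smul_snd, smul_eq_mul]
  rw [Real.sin_sub]
  ring

/-- upper comparison -/
lemma up_near {K s t h : ℝ} (hN : IsN N) (hK : 0 < K)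
    (hn : ∀ s u, N (uv u) ≤ (1 + K * |u - s|) * N (uv s)) (h1 : s ≤ t) (h3 : t - s ≤ h) :
    wd (pt N s) (pt N t) ≤ (1 + K * h) ^ 2 * (G N t - G N s) := by
  rw [wd_pt, G_sub hN]
  have ps := n_pos hN s
  have pt' := n_pos hN t
  have hs : Real.sin (t - s) ≤ t - s := Real.sin_le (by linarith)
  calc (N (uv s))⁻¹ * (N (uv t))⁻¹ * Real.sin (t - s)
      ≤ (N (uv s))⁻¹ * (N (uv t))⁻¹ * (t - s) := by gcongr
    _ = ∫ _u in s..t, (N (uv s))⁻¹ * (N (uv t))⁻¹ := by
        rw [intervalIntegral.integral_const, smul_eq_mul]; ring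
    _ ≤ ∫ u in s..t, (1 + K * h) ^ 2 * rd N u := by
        apply intervalIntegral.integral_mono_on h1 (by simp) ((rd_int hN s t).const_mul _)
        intro u hu
        exact (rd_le_near hN hK hn hu.1 hu.2 h3).1
    _ = (1 + K * h) ^ 2 * ∫ u in s..t, rd N u := by
        rw [intervalIntegral.integral_const_mul]

/-- lower comparison -/
lemma low_near {K s t h : ℝ} (hN : IsN N) (hK : 0 < K)
    (hn : ∀ s u, N (uv u) ≤ (1 + K * |u - s|) * N (uv s)) (h1 : s ≤ t) (h3 : t - s ≤ h) :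
    G N t - G N s ≤ (1 + K * h) ^ 2 * ((N (uv s))⁻¹ * (N (uv t))⁻¹) * (t - s) := by
  rw [G_sub hN]
  calc ∫ u in s..t, rd N u
      ≤ ∫ _u in s..t, (1 + K * h) ^ 2 * ((N (uv s))⁻¹ * (N (uv t))⁻¹) := by
        apply intervalIntegral.integral_mono_on h1 (rd_int hN s t) (by simp)
        intro u hu
        exact (rd_le_near hN hK hn hu.1 hu.2 h3).2
    _ = (1 + K * h) ^ 2 * ((N (uv s))⁻¹ * (N (uv t))⁻¹) * (t - s) := by
        rw [intervalIntegral.integral_const, smul_eq_mul]; ring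

/-- the local estimate for linear functionals -/
lemma loc (hN : IsN N) (v : ℝ × ℝ) {s t : ℝ} (hst : s ≤ t) (htp : t ≤ s + π)
    (hsign : (0 ≤ wd v (uv s) ∧ 0 ≤ wd v (uv t)) ∨ (wd v (uv s) ≤ 0 ∧ wd v (uv t) ≤ 0)) :
    wd v (pt N t) - wd v (pt N s) ≤ N v * wd (pt N s) (pt N t) := by
  have ps := n_pos hN s
  have pt' := n_pos hN t
  have hsin : 0 ≤ Real.sin (t - s) := Real.sin_nonneg_of_nonneg_of_le_pi (by linarith) (by linarith)
  have hwd : wd (uv s) (uv t) = Real.sin (t - s) := by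
    unfold wd uv
    rw [Real.sin_sub]
    ring
  have es : wd v (pt N s) = (N (uv s))⁻¹ * wd v (uv s) := by
    unfold wd pt
    simp only [Prod.smul_fst, Prod.smul_snd, smul_eq_mul]
    ring
  have et : wd v (pt N t) = (N (uv t))⁻¹ * wd v (uv t) := by
    unfold wd pt
    simp only [Prod.smul_fst, Prod.smul_snd, smul_eq_mul]
    ring
  have key : wd v (uv t) * N (uv s) ≤ wd v (uv s) * N (uv t) + Real.sin (t - s) * N v := by
    rcases hsign with ⟨ha, hb⟩ | ⟨ha, hb⟩
    · have e : (wd v (uv t)) • uv s = (wd v (uv s)) • uv t + (wd (uv s) (uv t)) • v := by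
        ext
        · simp only [wd, uv, Prod.smul_fst, Prod.fst_add, smul_eq_mul]
          ring
        · simp only [wd, uv, Prod.smul_snd, Prod.snd_add, smul_eq_mul]
          ring
      have h := hN.add ((wd v (uv s)) • uv t) ((wd (uv s) (uv t)) • v)
      rw [← e, hN.smul, hN.smul, hN.smul, hwd, abs_of_nonneg ha, abs_of_nonneg hb,
        abs_of_nonneg hsin] at h
      exact h
    · have e : (-wd v (uv s)) • uv t = (-wd v (uv t)) • uv s + (wd (uv s) (uv t)) • v := by
        ext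
        · simp only [wd, uv, Prod.smul_fst, Prod.fst_add, smul_eq_mul]
          ring
        · simp only [wd, uv, Prod.smul_snd, Prod.snd_add, smul_eq_mul]
          ring
      have h := hN.add ((-wd v (uv t)) • uv s) ((wd (uv s) (uv t)) • v)
      rw [← e, hN.smul, hN.smul, hN.smul, hwd, abs_of_nonneg (neg_nonneg.2 ha),
        abs_of_nonneg (neg_nonneg.2 hb), abs_of_nonneg hsin] at h
      linarith
  rw [es, et, wd_pt]
  have hdiv : (N (uv t))⁻¹ * wd v (uv t) - (N (uv s))⁻¹ * wd v (uv s)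
      = (wd v (uv t) * N (uv s) - wd v (uv s) * N (uv t)) * ((N (uv s))⁻¹ * (N (uv t))⁻¹) := by
    field_simp
  rw [hdiv]
  calc (wd v (uv t) * N (uv s) - wd v (uv s) * N (uv t)) * ((N (uv s))⁻¹ * (N (uv t))⁻¹)
      ≤ (Real.sin (t - s) * N v) * ((N (uv s))⁻¹ * (N (uv t))⁻¹) := by
        apply mul_le_mul_of_nonneg_right _ (by positivity)
        linarith
    _ = N v * ((N (uv s))⁻¹ * (N (uv t))⁻¹ * Real.sin (t - s)) := by ring

lemma N_nonneg (hN : IsN N) (v : ℝ × ℝ) : 0 ≤ N v := by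
  by_cases h : v = 0
  · have := hN.smul 0 v
    rw [zero_smul, abs_zero, zero_mul] at this
    rw [h, this]
  · exact (hN.pos v h).le

/-- the estimate on short intervals -/
lemma short {K s t h : ℝ} (hN : IsN N) (hK : 0 < K)
    (hn : ∀ s u, N (uv u) ≤ (1 + K * |u - s|) * N (uv s)) (v : ℝ × ℝ)
    (h1 : s ≤ t) (h3 : t - s ≤ h) (h4 : h ≤ π) :
    wd v (pt N t) - wd v (pt N s) ≤ (1 + K * h) ^ 2 * N v * (G N t - G N s) := by
  have hv := N_nonneg hN v
  have base : ∀ a b : ℝ, a ≤ b → b - a ≤ h →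
      ((0 ≤ wd v (uv a) ∧ 0 ≤ wd v (uv b)) ∨ (wd v (uv a) ≤ 0 ∧ wd v (uv b) ≤ 0)) →
      wd v (pt N b) - wd v (pt N a) ≤ (1 + K * h) ^ 2 * N v * (G N b - G N a) := by
    intro a b hab hbh hs
    calc wd v (pt N b) - wd v (pt N a) ≤ N v * wd (pt N a) (pt N b) :=
          loc hN v hab (by linarith) hs
      _ ≤ N v * ((1 + K * h) ^ 2 * (G N b - G N a)) :=
          mul_le_mul_of_nonneg_left (up_near hN hK hn hab hbh) hv
      _ = _ := by ring
  have hcont : Continuous fun r => wd v (uv r) := by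
    unfold wd uv
    fun_prop
  rcases le_total 0 (wd v (uv s)) with ha | ha <;> rcases le_total 0 (wd v (uv t)) with hb | hb
  · exact base s t h1 h3 (Or.inl ⟨ha, hb⟩)
  · obtain ⟨r, hr, hr0⟩ := intermediate_value_Icc' h1 hcont.continuousOn ⟨hb, ha⟩
    simp only at hr0
    have b1 := base s r hr.1 (by linarith [hr.2]) (Or.inl ⟨ha, hr0.ge⟩)
    have b2 := base r t hr.2 (by linarith [hr.1]) (Or.inr ⟨hr0.le, hb⟩)
    nlinarith [b1, b2]
  · obtain ⟨r, hr, hr0⟩ := intermediate_value_Icc h1 hcont.continuousOn ⟨ha, hb⟩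
    simp only at hr0
    have b1 := base s r hr.1 (by linarith [hr.2]) (Or.inr ⟨ha, hr0.le⟩)
    have b2 := base r t hr.2 (by linarith [hr.1]) (Or.inl ⟨hr0.ge, hb⟩)
    nlinarith [b1, b2]
  · exact base s t h1 h3 (Or.inr ⟨ha, hb⟩)

/-- local monotonicity implies monotonicity -/
lemma mono_of_local {H : ℝ → ℝ} {δ : ℝ} (hδ : 0 < δ)
    (hl : ∀ s t, s ≤ t → t - s ≤ δ → H s ≤ H t) : ∀ s t, s ≤ t → H s ≤ H t := by
  have key : ∀ n : ℕ, ∀ s t, s ≤ t → t - s ≤ n * δ → H s ≤ H t := by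
    intro n
    induction n with
    | zero =>
      intro s t hst h
      have : s = t := by
        rw [Nat.cast_zero, zero_mul] at h
        linarith
      rw [this]
    | succ n ih =>
      intro s t hst h
      rcases le_total (t - s) δ with h5 | h5
      · exact hl s t hst h5
      · have h6 : H s ≤ H (s + δ) := hl s (s + δ) (by linarith) (by linarith)
        have h7 : H (s + δ) ≤ H t := ih (s + δ) t (by linarith) (by
          push_cast at h
          linarith)
        exact h6.trans h7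
  intro s t hst
  obtain ⟨n, hn⟩ := exists_nat_ge ((t - s) / δ)
  refine key n s t hst ?_
  rwa [div_le_iff₀ hδ] at hn

/-- the global estimate -/
lemma glob (hN : IsN N) (v : ℝ × ℝ) {s t : ℝ} (hst : s ≤ t) :
    wd v (pt N t) - wd v (pt N s) ≤ N v * (G N t - G N s) := by
  obtain ⟨K, hK, hn⟩ := n_near hN
  have hv := N_nonneg hN v
  have hG : 0 ≤ G N t - G N s := sub_nonneg.2 ((G_mono hN).monotone hst)
  have key : ∀ h : ℝ, 0 < h → h ≤ π →
      wd v (pt N t) - wd v (pt N s) ≤ (1 + K * h) ^ 2 * (N v * (G N t - G N s)) := by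
    intro h h0 hp
    have hm := mono_of_local (H := fun r => (1 + K * h) ^ 2 * N v * G N r - wd v (pt N r)) h0
      (fun a b hab hb => by
        have h9 := short hN hK hn v hab hb hp
        show (1 + K * h) ^ 2 * N v * G N a - wd v (pt N a) ≤
          (1 + K * h) ^ 2 * N v * G N b - wd v (pt N b)
        linarith) s t hst
    have hm' : (1 + K * h) ^ 2 * N v * G N s - wd v (pt N s) ≤
      (1 + K * h) ^ 2 * N v * G N t - wd v (pt N t) := hm
    linarith
  have ht : Filter.Tendsto (fun h : ℝ => (1 + K * h) ^ 2 * (N v * (G N t - G N s)))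
      (nhdsWithin 0 (Ioi 0)) (nhds ((1 + K * 0) ^ 2 * (N v * (G N t - G N s)))) := by
    apply Filter.Tendsto.mono_left _ nhdsWithin_le_nhds
    exact Continuous.tendsto (by fun_prop) 0
  have he : ∀ᶠ h in nhdsWithin (0 : ℝ) (Ioi 0),
      wd v (pt N t) - wd v (pt N s) ≤ (1 + K * h) ^ 2 * (N v * (G N t - G N s)) := by
    filter_upwards [Ioo_mem_nhdsGT Real.pi_pos] with h hh
    exact key h hh.1 hh.2.le
  have := ge_of_tendsto ht he
  simpa using this

/-- the lower estimate on short intervals -/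
lemma lowA2 (hN : IsN N) {ε : ℝ} (h0 : 0 < ε) (h1 : ε ≤ 1) : ∃ δ : ℝ, 0 < δ ∧ δ ≤ 1 ∧
    ∀ s t, s < t → t - s ≤ δ → (1 - ε) * (G N t - G N s) ≤ wd (pt N s) (pt N t) := by
  obtain ⟨K, hK, hn⟩ := n_near hN
  refine ⟨min ε (ε / (8 * K)), by positivity, (min_le_left _ _).trans h1, fun s t hst hd => ?_⟩
  have hd1 : t - s ≤ ε := hd.trans (min_le_left _ _)
  have hd2 : t - s ≤ ε / (8 * K) := hd.trans (min_le_right _ _)
  have hx : 0 < t - s := by linarith
  have hG := low_near hN hK hn hst.le hd2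
  have hKh : K * (ε / (8 * K)) = ε / 8 := by field_simp
  rw [hKh] at hG
  have ps := inv_pos.2 (n_pos hN s)
  have pt' := inv_pos.2 (n_pos hN t)
  set P := (N (uv s))⁻¹ * (N (uv t))⁻¹ with hP
  have hPp : 0 < P := mul_pos ps pt'
  have hsin : (1 - ε / 4) * (t - s) ≤ Real.sin (t - s) := by
    have h2 := Real.sin_gt_sub_cube hx
    have h3 : (t - s) ^ 3 / 6 ≤ ε / 4 * (t - s) := by
      have h4 : (t - s) ^ 2 ≤ ε := by nlinarith
      have h5 : (t - s) ^ 3 = (t - s) ^ 2 * (t - s) := by ring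
      rw [h5]
      nlinarith
    linarith
  rw [wd_pt, ← hP]
  have h6 : (1 - ε) * (1 + ε / 8) ^ 2 ≤ 1 - ε / 4 := by nlinarith [mul_nonneg h0.le h0.le, mul_nonneg (mul_nonneg h0.le h0.le) h0.le]
  calc (1 - ε) * (G N t - G N s) ≤ (1 - ε) * ((1 + ε / 8) ^ 2 * P * (t - s)) :=
        mul_le_mul_of_nonneg_left hG (by linarith)
    _ = P * (((1 - ε) * (1 + ε / 8) ^ 2) * (t - s)) := by ring
    _ ≤ P * ((1 - ε / 4) * (t - s)) := by
        apply mul_le_mul_of_nonneg_left _ hPp.le
        exact mul_le_mul_of_nonneg_right h6 hx.le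
    _ ≤ P * Real.sin (t - s) := mul_le_mul_of_nonneg_left hsin hPp.le

/-- linear growth of `G` -/
lemma G_growth (hN : IsN N) : ∃ m : ℝ, 0 < m ∧ ∀ s t, s ≤ t → m * (t - s) ≤ G N t - G N s := by
  obtain ⟨C, hC, h1, -⟩ := n_le hN
  refine ⟨(C ^ 2)⁻¹, by positivity, fun s t hst => ?_⟩
  rw [G_sub hN]
  calc (C ^ 2)⁻¹ * (t - s) = ∫ _u in s..t, (C ^ 2)⁻¹ := by
        rw [intervalIntegral.integral_const, smul_eq_mul]; ring
    _ ≤ ∫ u in s..t, rd N u := by
        apply intervalIntegral.integral_mono_on hst (by simp) (rd_int hN s t)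
        intro u _
        unfold rd
        have hu := n_pos hN u
        have := h1 u
        gcongr

lemma G_surj (hN : IsN N) : Function.Surjective (G N) := by
  obtain ⟨m, hm, hg⟩ := G_growth hN
  apply (G_cont hN).surjective
  · have h1 : Filter.Tendsto (fun t : ℝ => m * (t + π)) Filter.atTop Filter.atTop :=
      Filter.Tendsto.const_mul_atTop hm (Filter.tendsto_atTop_add_const_right _ _ Filter.tendsto_id)
    apply Filter.tendsto_atTop_mono' _ _ h1
    filter_upwards [Filter.eventually_ge_atTop (-π)] with t ht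
    have := hg (-π) t ht
    rw [G_neg_pi] at this
    linarith
  · have h1 : Filter.Tendsto (fun t : ℝ => m * (t + π)) Filter.atBot Filter.atBot :=
      Filter.Tendsto.const_mul_atBot hm (Filter.tendsto_atBot_add_const_right _ _ Filter.tendsto_id)
    apply Filter.tendsto_atBot_mono' _ _ h1
    filter_upwards [Filter.eventually_le_atBot (-π)] with t ht
    have := hg t (-π) ht
    rw [G_neg_pi] at this
    linarith

/-- the order isomorphism -/
def Gi (hN : IsN N) : ℝ ≃o ℝ := StrictMono.orderIsoOfSurjective (G N) (G_mono hN) (G_surj hN)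

lemma Gi_apply (hN : IsN N) (t : ℝ) : Gi hN t = G N t := rfl

lemma pt_cont (hN : IsN N) : Continuous (pt N) := by
  unfold pt
  exact ((n_cont hN).inv₀ fun θ => (n_pos hN θ).ne').smul uv_cont

lemma pt_pi (hN : IsN N) (θ : ℝ) : pt N (θ + π) = - pt N θ := by
  unfold pt
  rw [n_pi hN, uv_pi, smul_neg]

lemma N_pt (hN : IsN N) (θ : ℝ) : N (pt N θ) = 1 := by
  unfold pt
  have h := n_pos hN θ
  rw [hN.smul, abs_of_pos (inv_pos.2 h), inv_mul_cancel₀ h.ne']

/-- the parametrisation -/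
def X (hN : IsN N) (a : ℝ) : ℝ × ℝ := pt N ((Gi hN).symm a)

lemma X_G (hN : IsN N) (t : ℝ) : X hN (G N t) = pt N t := by
  unfold X
  rw [← Gi_apply hN, OrderIso.symm_apply_apply]

lemma G_Gi (hN : IsN N) (a : ℝ) : G N ((Gi hN).symm a) = a := by
  rw [← Gi_apply hN, OrderIso.apply_symm_apply]

lemma X_cont (hN : IsN N) : Continuous (X hN) :=
  (pt_cont hN).comp (Gi hN).symm.continuous

lemma Gi_symm_add (hN : IsN N) (a : ℝ) : (Gi hN).symm (a + hT N) = (Gi hN).symm a + π := by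
  apply (Gi hN).injective
  rw [OrderIso.apply_symm_apply, Gi_apply, G_add_pi hN, G_Gi]

lemma par (hN : IsN N) : Par N (hT N) (X hN) where
  T_pos := hT_pos hN
  cont := X_cont hN
  anti := fun a => by
    unfold X
    rw [Gi_symm_add, pt_pi hN]
  one := fun a => N_pt hN _
  A1 := fun a b v hab => by
    have h1 : (Gi hN).symm a ≤ (Gi hN).symm b := (Gi hN).symm.monotone hab
    have h2 := glob hN v h1
    rw [G_Gi, G_Gi] at h2
    have e : wd v (X hN b - X hN a) = wd v (X hN b) - wd v (X hN a) := by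
      unfold wd
      simp only [Prod.fst_sub, Prod.snd_sub]
      ring
    rw [e]
    unfold X
    linarith
  A3 := fun a b hab hbT => by
    unfold X
    have h1 : (Gi hN).symm a < (Gi hN).symm b := (Gi hN).symm.strictMono hab
    have h2 : (Gi hN).symm b < (Gi hN).symm a + π := by
      rw [← Gi_symm_add]
      exact (Gi hN).symm.strictMono hbT
    rw [wd_pt]
    have h3 := Real.sin_pos_of_pos_of_lt_pi (x := (Gi hN).symm b - (Gi hN).symm a)
      (by linarith) (by linarith)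
    have h4 := n_pos hN ((Gi hN).symm a)
    have h5 := n_pos hN ((Gi hN).symm b)
    positivity
  A2 := fun ε h0 => by
    obtain ⟨m, hm, hg⟩ := G_growth hN
    obtain ⟨δ, hδ, hδ1, hl⟩ := lowA2 hN (ε := min ε 1) (by positivity) (min_le_right _ _)
    refine ⟨m * δ, by positivity, fun a b hab hb => ?_⟩
    have h1 : (Gi hN).symm a < (Gi hN).symm b := (Gi hN).symm.strictMono hab
    have h2 := hg _ _ h1.le
    rw [G_Gi, G_Gi] at h2
    have h3 : (Gi hN).symm b - (Gi hN).symm a ≤ δ := by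
      have h4 : m * ((Gi hN).symm b - (Gi hN).symm a) ≤ m * δ := by linarith
      exact le_of_mul_le_mul_left h4 hm
    have h5 := hl _ _ h1 h3
    rw [G_Gi, G_Gi] at h5
    have h6 : (1 - ε) * (b - a) ≤ (1 - min ε 1) * (b - a) :=
      mul_le_mul_of_nonneg_right (by linarith [min_le_left ε 1]) (by linarith)
    exact h6.trans h5

lemma cov (hN : IsN N) (g : ℝ → ℝ) (hg : Continuous g) :
    ∫ θ in (-π)..π, g (G N θ) * rd N θ = ∫ a in (0 : ℝ)..(2 * hT N), g a := by
  have h := intervalIntegral.integral_comp_mul_deriv (a := -π) (b := π) (f := G N) (f' := rd N)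
    (g := g) (fun x _ => G_deriv hN x) (rd_cont hN).continuousOn hg
  rw [G_neg_pi, G_pi hN] at h
  exact h

/-- the parametrisation by the area -/
theorem PARAM : S_PARAM := by
  intro N hN
  refine ⟨hT N, X hN, par hN, ?_⟩
  have hXc := X_cont hN
  have hden : ∫ θ in (-π)..π, rd N θ = 2 * hT N := by
    have := G_pi hN
    unfold G at this
    exact this
  have hinner : ∀ θ : ℝ, ∫ φ in (-π)..π, N (pt N θ - pt N φ) * rd N φ
      = ∫ b in (0 : ℝ)..(2 * hT N), N (X hN (G N θ) - X hN b) := by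
    intro θ
    rw [X_G]
    have h := cov hN (fun b => N (pt N θ - X hN b)) (hN.cont.comp (continuous_const.sub hXc))
    rw [← h]
    congr 1
    funext φ
    rw [X_G]
  have hcont : Continuous fun a => ∫ b in (0 : ℝ)..(2 * hT N), N (X hN a - X hN b) := by
    apply intervalIntegral.continuous_parametric_intervalIntegral_of_continuous'
    exact hN.cont.comp ((hXc.comp continuous_fst).sub (hXc.comp continuous_snd))
  have hout : ∫ θ in (-π)..π, (∫ φ in (-π)..π, N (pt N θ - pt N φ) * rd N φ) * rd N θ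
      = ∫ a in (0 : ℝ)..(2 * hT N), ∫ b in (0 : ℝ)..(2 * hT N), N (X hN a - X hN b) := by
    rw [← cov hN (fun a => ∫ b in (0 : ℝ)..(2 * hT N), N (X hN a - X hN b)) hcont]
    congr 1
    funext θ
    rw [hinner]
  unfold EN
  rw [hout, hden]

end

end Pool.Agent.TH384.SPParam
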