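import Mathlib
import Pool.Agent.TH109.M.Defs

set_option autoImplicit false

open scoped Classical

namespace Pool.Agent.TH384.J1568

open Pool.Agent.Helper943.LM (UA wpow wpow_length lenS)
open Pool.Agent.TH109.M

variable {G : Type} [Group G]

theorem live_st (U : UA G) {w : List U.A} (hw : w ∈ U.L) (t : ℕ) : U.live (st U w t) := by
  have h : w.take t ++ w.drop t ∈ U.L := by rw [List.take_append_drop]; exact hw
  exact U.live_of_mem h

theorem take_split {α : Type} (w : List α) {x y : ℕ} (h : x ≤ y) :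
    w.take y = w.take x ++ (w.take y).drop x := by
  have h1 := List.take_append_drop x (w.take y)
  rw [List.take_take, min_eq_left h] at h1
  exact h1.symm

theorem st_add (U : UA G) (w : List U.A) {x y : ℕ} (h : x ≤ y) :
    U.run (st U w x) ((w.take y).drop x) = st U w y := by
  unfold st
  rw [← U.run_append, ← take_split w h]

theorem pt_add (U : UA G) (w : List U.A) {x y : ℕ} (h : x ≤ y) :
    pt U w y = pt U w x * U.ev ((w.take y).drop x) := by
  unfold pt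
  rw [← U.ev_append, ← take_split w h]

theorem cn_path (U : UA G) (w : List U.A) {x y : ℕ} (h : x ≤ y) :
    Cn U (st U w x) (st U w y) := ⟨_, st_add U w h⟩

theorem cn_trans (U : UA G) {a b c : U.S} (h1 : Cn U a b) (h2 : Cn U b c) : Cn U a c := by
  obtain ⟨z1, h1⟩ := h1
  obtain ⟨z2, h2⟩ := h2
  exact ⟨z1 ++ z2, by rw [U.run_append, h1, h2]⟩

theorem key (U : UA G) (hU : Star U) (D : Set G) (hD : D.Finite) (M ℓ : ℕ)
    (hM : M = Nat.card (U.S × U.S × D)) (hl : M.factorial ∣ ℓ) (hL : LoopS U ℓ)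
    {w w' : List U.A} (hw : w ∈ U.L) (hw' : w' ∈ U.L)
    (hd : ∀ t : ℕ, (pt U w t)⁻¹ * pt U w' t ∈ D) (t1 : ℕ) (h1 : t1 + M ≤ w.length)
    (h1' : t1 + M ≤ w'.length) :
    ∃ t2, t1 ≤ t2 ∧ t2 ≤ t1 + M ∧ Cy U (st U w' t2) ∧ EV U ℓ w' t2 = EV U ℓ w t2 := by
  have : Finite U.S := U.finS
  have : Finite D := hD.to_subtype
  let f : Fin (M + 1) → U.S × U.S × D := fun i =>
    (st U w (t1 + i), st U w' (t1 + i), ⟨(pt U w (t1 + i))⁻¹ * pt U w' (t1 + i), hd _⟩)
  have hninj : ¬ Function.Injective f := by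
    intro hinj
    have h1 := Nat.card_le_card_of_injective f hinj
    rw [Nat.card_fin, ← hM] at h1
    omega
  rw [Function.Injective] at hninj
  push Not at hninj
  obtain ⟨i0, j0, hij0, hne0⟩ := hninj
  obtain ⟨i, j, hi, hj, hlt, hs, hs', hδ⟩ : ∃ i j : ℕ, i ≤ M ∧ j ≤ M ∧ i < j ∧
      st U w (t1 + i) = st U w (t1 + j) ∧ st U w' (t1 + i) = st U w' (t1 + j) ∧
      (pt U w (t1 + i))⁻¹ * pt U w' (t1 + i) = (pt U w (t1 + j))⁻¹ * pt U w' (t1 + j) := by
    have a1 : st U w (t1 + i0) = st U w (t1 + j0) := congrArg Prod.fst hij0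
    have a2 : st U w' (t1 + i0) = st U w' (t1 + j0) := congrArg (fun q => q.2.1) hij0
    have a3 : (pt U w (t1 + i0))⁻¹ * pt U w' (t1 + i0) =
        (pt U w (t1 + j0))⁻¹ * pt U w' (t1 + j0) :=
      congrArg (fun q : U.S × U.S × D => (q.2.2 : G)) hij0
    have hi := i0.2
    have hj := j0.2
    rcases lt_or_gt_of_ne (fun h => hne0 (Fin.ext h) : (i0 : ℕ) ≠ j0) with h | h
    · exact ⟨i0, j0, by omega, by omega, h, a1, a2, a3⟩
    · exact ⟨j0, i0, by omega, by omega, h, a1.symm, a2.symm, a3.symm⟩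
  set t2 := t1 + i with ht2
  set t3 := t1 + j with ht3
  have h23 : t2 < t3 := by omega
  -- the exponent
  have hjd : t3 - t2 ∣ ℓ :=
    (Nat.dvd_factorial (by omega) (by omega : t3 - t2 ≤ M)).trans hl
  obtain ⟨n, hn⟩ := hjd
  -- general claim
  have claim : ∀ v : List U.A, v ∈ U.L → t3 ≤ v.length → st U v t2 = st U v t3 →
      Cy U (st U v t2) ∧
      EV U ℓ v t2 = pt U v t2 * U.ev ((v.take t3).drop t2) ^ n * (pt U v t2)⁻¹ := by
    intro v hv hlen hst
    have hrun : U.run (st U v t2) ((v.take t3).drop t2) = st U v t2 := by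
      rw [st_add U v h23.le, hst]
    have hzl : ((v.take t3).drop t2).length = t3 - t2 := by
      rw [List.length_drop, List.length_take, min_eq_left hlen]
    have hcy : Cy U (st U v t2) := by
      refine ⟨_, ?_, hrun⟩
      intro h0
      rw [h0, List.length_nil] at hzl
      omega
    refine ⟨hcy, ?_⟩
    have hlive := live_st U hv t2
    obtain ⟨b1, b2⟩ := hL.2.1 _ hlive hcy
    have hlp : lp U ℓ (st U v t2) = wpow ((v.take t3).drop t2) n := by
      refine hU _ hlive _ _ b1 (U.run_wpow hrun n) ?_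
      rw [b2, wpow_length, hzl, hn, mul_comm]
    unfold EV
    rw [hlp, U.ev_wpow]
  obtain ⟨c1, e1⟩ := claim w hw (by omega) hs
  obtain ⟨c2, e2⟩ := claim w' hw' (by omega) hs'
  refine ⟨t2, by omega, by omega, c2, ?_⟩
  rw [e1, e2]
  have p1 := pt_add U w h23.le
  have p2 := pt_add U w' h23.le
  generalize U.ev ((w.take t3).drop t2) = z at *
  generalize U.ev ((w'.take t3).drop t2) = z' at *
  rw [p1, p2] at hδ
  generalize pt U w t2 = P at *
  generalize pt U w' t2 = P' at *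
  have h2 : z' = P'⁻¹ * P * z * (P⁻¹ * P') := by rw [hδ]; group
  have h3 : z' = (P'⁻¹ * P) * z * (P'⁻¹ * P)⁻¹ := by rw [h2]; group
  rw [h3, conj_pow]
  group

theorem pairL (U : UA G) (hU : Star U) : ∃ ℓ0 : ℕ, 0 < ℓ0 ∧ ∀ ℓ : ℕ, ℓ0 ∣ ℓ → LoopS U ℓ →
    ∃ K2 : ℕ, ∀ (a : U.A) (g e : G) (K t : ℕ), K2 ≤ K → Sg U ℓ K (nf U g) e t →
      ∃ t', t ≤ t' ∧ t' ≤ t + K ∧ Sg U ℓ (K - K2) (nf U (g * U.mu a)) e t' := by
  have : Finite U.A := U.finA
  choose D hD hft using fun a : U.A => U.ft' (U.mu a)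
  choose C hC using fun a : U.A => lenS U (U.mu a)⁻¹
  obtain ⟨C0, hC0⟩ := (Set.finite_range C).bddAbove
  have hDD : (⋃ a, D a).Finite := Set.finite_iUnion hD
  obtain ⟨M, hM⟩ : ∃ M : ℕ, M = Nat.card (U.S × U.S × (⋃ a, D a : Set G)) := ⟨_, rfl⟩
  refine ⟨M.factorial, Nat.factorial_pos _, fun ℓ hl hL => ⟨2 * M + C0, ?_⟩⟩
  intro a g e K t hK ⟨s1, s2, s3, s4⟩
  set w := nf U g with hwd
  set w' := nf U (g * U.mu a) with hwd'
  have hw : w ∈ U.L := nf_mem U g
  have hw' : w' ∈ U.L := nf_mem U _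
  have hev : U.ev w * U.mu a = U.ev w' := by rw [hwd, hwd', nf_ev, nf_ev]
  have hlen : w.length ≤ w'.length + C0 := by
    have h1 := hC a w' hw' w hw (by rw [← hev]; group)
    have h2 := hC0 (Set.mem_range_self a)
    omega
  have hd : ∀ t : ℕ, (pt U w t)⁻¹ * pt U w' t ∈ (⋃ a, D a : Set G) := fun t =>
    Set.mem_iUnion.2 ⟨a, hft a w hw w' hw' hev t⟩
  obtain ⟨t', ht1, ht2, cy', ev'⟩ := key U hU _ hDD M ℓ hM hl hL hw hw' hd t (by omega) (by omega)
  obtain ⟨t'', hu1, hu2, cy'', ev''⟩ := key U hU _ hDD M ℓ hM hl hL hw hw' hd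
    (t + K - C0 - M) (by omega) (by omega)
  have hev1 : ∀ x, t ≤ x → x ≤ t + K → EV U ℓ w x = e := by
    intro x hx1 hx2
    rw [← s4]
    exact (hL.2.2.2.1 w hw t x hx1 s2 (cn_trans U (cn_path U w hx2) s3)).symm
  have f1 : EV U ℓ w' t' = e := by rw [ev', hev1 t' (by omega) (by omega)]
  have f2 : EV U ℓ w' t'' = e := by rw [ev'', hev1 t'' (by omega) (by omega)]
  have hcn : Cn U (st U w' t'') (st U w' t') :=
    hL.2.2.2.2 w' hw' t' t'' (by omega) cy' cy'' (by rw [f1, f2])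
  refine ⟨t', ht1, by omega, by omega, cy', ?_, f1⟩
  exact cn_trans U (cn_path U w' (by omega)) hcn

end Pool.Agent.TH384.J1568
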