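import Pool.Agent.TH490.StmN

set_option autoImplicit false
set_option linter.unusedSectionVars false

/-!
# MP325-NM: the nibble theorem from the step inequalities (job 1184)
-/

namespace Pool.Agent.TH384.MP325_NM

open Finset Classical Filter Topology
open Pool.Agent.TH490

noncomputable section

variable {n : ℕ} {X ι : Type} [Fintype X] [Fintype ι]

lemma mem_lst {D : Nib n X ι} {t : ℕ} {x : X} : x ∈ lst D t ↔ (D.o x : ℕ) = t := by
  simp [lst]

/-- exponential lemma -/
lemma exp_lem {α : Type} (S : Finset α) (p D : α → ℝ) (hp : ∀ x ∈ S, 0 ≤ p x)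
    (hs : ∑ x ∈ S, p x = 1) (θ b C : ℝ) (hθ : 0 ≤ θ) (hb : ∀ x ∈ S, |D x| ≤ b) (h1 : θ * b ≤ 1)
    (hC : 0 < C) (h2 : θ * b * C ≤ 1) (hE : ∑ x ∈ S, p x * |D x| ≤ C * ∑ x ∈ S, p x * D x) :
    ∑ x ∈ S, p x * Real.exp (-(θ * D x)) ≤ 1 := by
  have hne : S.Nonempty := by
    rw [Finset.nonempty_iff_ne_empty]
    rintro rfl
    simp at hs
  obtain ⟨x₀, hx₀⟩ := hne
  have hb0 : 0 ≤ b := (abs_nonneg _).trans (hb x₀ hx₀)
  set E := ∑ x ∈ S, p x * D x with hEd
  have hA : 0 ≤ ∑ x ∈ S, p x * |D x| :=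
    Finset.sum_nonneg (fun x hx => mul_nonneg (hp x hx) (abs_nonneg _))
  have hE0 : 0 ≤ E := by
    by_contra hcon
    push Not at hcon
    nlinarith
  have hterm : ∀ x ∈ S, p x * Real.exp (-(θ * D x)) ≤
      p x - θ * (p x * D x) + θ ^ 2 * b * (p x * |D x|) := by
    intro x hx
    have h3 : |-(θ * D x)| ≤ 1 := by
      rw [abs_neg, abs_mul, abs_of_nonneg hθ]
      exact (mul_le_mul_of_nonneg_left (hb x hx) hθ).trans h1
    have h4 := Real.abs_exp_sub_one_sub_id_le h3
    have h5 := (abs_le.1 h4).2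
    have h6 : (-(θ * D x)) ^ 2 ≤ θ ^ 2 * b * |D x| := by
      have : (-(θ * D x)) ^ 2 = θ ^ 2 * (|D x| * |D x|) := by
        rw [abs_mul_abs_self]; ring
      rw [this]
      have h7 : |D x| * |D x| ≤ b * |D x| := mul_le_mul_of_nonneg_right (hb x hx) (abs_nonneg _)
      nlinarith [sq_nonneg θ]
    have h8 : Real.exp (-(θ * D x)) ≤ 1 - θ * D x + θ ^ 2 * b * |D x| := by linarith
    calc p x * Real.exp (-(θ * D x)) ≤ p x * (1 - θ * D x + θ ^ 2 * b * |D x|) :=
          mul_le_mul_of_nonneg_left h8 (hp x hx)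
      _ = _ := by ring
  calc ∑ x ∈ S, p x * Real.exp (-(θ * D x)) ≤
      ∑ x ∈ S, (p x - θ * (p x * D x) + θ ^ 2 * b * (p x * |D x|)) := Finset.sum_le_sum hterm
    _ = 1 - θ * E + θ ^ 2 * b * ∑ x ∈ S, p x * |D x| := by
        rw [Finset.sum_add_distrib, Finset.sum_sub_distrib, hs, ← Finset.mul_sum,
          ← Finset.mul_sum]
    _ ≤ 1 - θ * E + θ ^ 2 * b * (C * E) := by
        have : 0 ≤ θ ^ 2 * b := by positivity
        have := mul_le_mul_of_nonneg_left hE this
        linarith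
    _ = 1 - θ * E * (1 - θ * b * C) := by ring
    _ ≤ 1 := by
        have : 0 ≤ θ * E * (1 - θ * b * C) := mul_nonneg (mul_nonneg hθ hE0) (by linarith)
        linarith

/-! ### signs -/

section signs

variable {D : Nib n X ι} {R : ℕ} {s : NSt n X ι}

lemma hat_nonneg (hw : ∀ v, 0 ≤ s.w v) (v : X) : 0 ≤ hat D s v := by
  unfold hat
  have := hw v
  split_ifs <;> positivity

lemma eng_nonneg (hw : ∀ v, 0 ≤ s.w v) (β : ι) (e : Finset X) (u : X) : 0 ≤ eng D s β e u := by
  unfold eng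
  apply mul_nonneg
  · split_ifs
    · exact zero_le_one
    · exact (Real.exp_pos _).le
  · exact Finset.prod_nonneg (fun v _ => hat_nonneg hw v)

lemma FN_nonneg (hw : ∀ v, 0 ≤ s.w v) (u : X) : 0 ≤ FN D s u :=
  Finset.sum_nonneg (fun _ _ => Finset.sum_nonneg (fun _ _ => eng_nonneg hw _ _ _))

lemma FT_nonneg (hw : ∀ v, 0 ≤ s.w v) (u : X) : 0 ≤ FT D s u :=
  Finset.sum_nonneg (fun _ _ => Finset.sum_nonneg (fun _ _ => eng_nonneg hw _ _ _))

/-! ### killing -/

lemma kill_w_nonneg (hw : ∀ v, 0 ≤ s.w v) (v : X) : 0 ≤ (kill D R s).w v := by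
  show 0 ≤ (if 1 ≤ GG D R s v then (0 : ℝ) else s.w v)
  split_ifs
  · exact le_rfl
  · exact hw v

lemma kill_w_le (hw : ∀ v, 0 ≤ s.w v) (v : X) : (kill D R s).w v ≤ s.w v := by
  show (if 1 ≤ GG D R s v then (0 : ℝ) else s.w v) ≤ s.w v
  split_ifs
  · exact hw v
  · exact le_rfl

lemma hat_kill_le (hw : ∀ v, 0 ≤ s.w v) (v : X) : hat D (kill D R s) v ≤ hat D s v := by
  unfold hat
  show (if (D.o v : ℕ) < s.t then (if s.c (D.o v) = v then (1 : ℝ) else 0)
    else 16 * (kill D R s).w v) ≤ _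
  by_cases h : (D.o v : ℕ) < s.t
  · rw [if_pos h, if_pos h]
  · rw [if_neg h, if_neg h]
    have := kill_w_le (D := D) (R := R) hw v
    linarith

lemma eng_kill_le (hw : ∀ v, 0 ≤ s.w v) (β : ι) (e : Finset X) (u : X) :
    eng D (kill D R s) β e u ≤ eng D s β e u := by
  unfold eng
  show (if D.tiny β then (1 : ℝ) else Real.exp (-5 * s.LB β)) * _ ≤ _
  apply mul_le_mul_of_nonneg_left
  · exact Finset.prod_le_prod (fun v _ => hat_nonneg (kill_w_nonneg hw) v)
      (fun v _ => hat_kill_le hw v)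
  · split_ifs
    · exact zero_le_one
    · exact (Real.exp_pos _).le

lemma FN_kill_le (hw : ∀ v, 0 ≤ s.w v) (u : X) : FN D (kill D R s) u ≤ FN D s u :=
  Finset.sum_le_sum (fun _ _ => Finset.sum_le_sum (fun _ _ => eng_kill_le hw _ _ _))

lemma FT_kill_le (hw : ∀ v, 0 ≤ s.w v) (u : X) : FT D (kill D R s) u ≤ FT D s u :=
  Finset.sum_le_sum (fun _ _ => Finset.sum_le_sum (fun _ _ => eng_kill_le hw _ _ _))

lemma GG_kill_le (hR : 0 < Real.log R) (hw : ∀ v, 0 ≤ s.w v) (u : X) :
    GG D R (kill D R s) u ≤ GG D R s u := by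
  unfold GG
  have h1 := FN_kill_le (D := D) (R := R) hw u
  have h2 := FT_kill_le (D := D) (R := R) hw u
  have h3 : (kill D R s).L u = s.L u := rfl
  rw [h3]
  have h4 : (FN D (kill D R s) u + s.L u) / (Real.log R / 100) ≤
      (FN D s u + s.L u) / (Real.log R / 100) := by
    apply div_le_div_of_nonneg_right _ (by positivity)
    linarith
  linarith

lemma yt_kill_ge (hR : 0 < Real.log R) (hw : ∀ v, 0 ≤ s.w v) (u : X) :
    yt D R s u ≤ yt D R (kill D R s) u := by
  unfold yt
  by_cases h : 1 ≤ GG D R s u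
  · have h1 : (kill D R s).w u = 0 := if_pos h
    have h2 : max 0 (1 - GG D R s u) = 0 := max_eq_left (by linarith)
    rw [h1, h2, mul_zero, zero_mul]
  · have h1 : (kill D R s).w u = s.w u := if_neg h
    rw [h1]
    apply mul_le_mul_of_nonneg_left _ (hw u)
    exact max_le_max le_rfl (by have := GG_kill_le (D := D) hR hw u; linarith)

lemma YY_kill_ge (hR : 0 < Real.log R) (hw : ∀ v, 0 ≤ s.w v) (i : ℕ) :
    YY D R s i ≤ YY D R (kill D R s) i :=
  Finset.sum_le_sum (fun u _ => yt_kill_ge hR hw u)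

lemma XX_kill_le (hw : ∀ v, 0 ≤ s.w v) (β : ι) : XX D (kill D R s) β ≤ XX D s β := by
  unfold XX
  show Real.exp (-s.LB β) * ∑ v ∈ (D.B β).filter (fun v => s.t ≤ (D.o v : ℕ)), (kill D R s).w v
    + (1 / 4) * (1 - Real.exp (-s.LB β)) ≤ _
  have : ∑ v ∈ (D.B β).filter (fun v => s.t ≤ (D.o v : ℕ)), (kill D R s).w v ≤
      ∑ v ∈ (D.B β).filter (fun v => s.t ≤ (D.o v : ℕ)), s.w v :=
    Finset.sum_le_sum (fun v _ => kill_w_le hw v)
  have := mul_le_mul_of_nonneg_left this (Real.exp_pos (-s.LB β)).le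
  linarith

end signs

/-! ### potential -/

/-- potential -/
def Phi (D : Nib n X ι) (θ : ℝ) (R : ℕ) (s : NSt n X ι) : ℝ :=
  ∑ i ∈ (range n).filter (fun i => s.t ≤ i), Real.exp (-(θ * (YY D R s i - 1 / 2))) +
    ∑ β ∈ univ.filter (fun β => ¬ D.tiny β), Real.exp (θ * (XX D s β - 1 / 20))

lemma Phi_kill_le (D : Nib n X ι) {θ : ℝ} (hθ : 0 ≤ θ) {R : ℕ} (hR : 0 < Real.log R)
    {s : NSt n X ι} (hw : ∀ v, 0 ≤ s.w v) : Phi D θ R (kill D R s) ≤ Phi D θ R s := by
  unfold Phi
  apply add_le_add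
  · show ∑ i ∈ (range n).filter (fun i => s.t ≤ i), _ ≤ _
    apply Finset.sum_le_sum
    intro i _
    apply Real.exp_le_exp.2
    have := mul_le_mul_of_nonneg_left (YY_kill_ge (D := D) hR hw i) hθ
    nlinarith
  · apply Finset.sum_le_sum
    intro β _
    apply Real.exp_le_exp.2
    have := mul_le_mul_of_nonneg_left (XX_kill_le (D := D) (R := R) hw β) hθ
    nlinarith

lemma low_of_Phi {D : Nib n X ι} {θ : ℝ} (hθ : 0 < θ) {R : ℕ} {s : NSt n X ι}
    (h : Phi D θ R s < 1) {i : ℕ} (hi : i < n) (hti : s.t ≤ i) : 1 / 2 < YY D R s i := by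
  have h1 : Real.exp (-(θ * (YY D R s i - 1 / 2))) ≤
      ∑ i ∈ (range n).filter (fun i => s.t ≤ i), Real.exp (-(θ * (YY D R s i - 1 / 2))) :=
    Finset.single_le_sum (f := fun i => Real.exp (-(θ * (YY D R s i - 1 / 2))))
      (fun _ _ => (Real.exp_pos _).le) (Finset.mem_filter.2 ⟨Finset.mem_range.2 hi, hti⟩)
  have h2 : 0 ≤ ∑ β ∈ univ.filter (fun β => ¬ D.tiny β), Real.exp (θ * (XX D s β - 1 / 20)) :=
    Finset.sum_nonneg (fun _ _ => (Real.exp_pos _).le)
  unfold Phi at h
  have h3 : Real.exp (-(θ * (YY D R s i - 1 / 2))) < 1 := by linarith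
  rw [Real.exp_lt_one_iff] at h3
  have h4 : 0 < θ * (YY D R s i - 1 / 2) := by linarith
  have := (mul_pos_iff_of_pos_left hθ).1 h4
  linarith

lemma up_of_Phi {D : Nib n X ι} {θ : ℝ} (hθ : 0 < θ) {R : ℕ} {s : NSt n X ι}
    (h : Phi D θ R s < 1) {β : ι} (hβ : ¬ D.tiny β) : XX D s β < 1 / 20 := by
  have h1 : Real.exp (θ * (XX D s β - 1 / 20)) ≤
      ∑ β ∈ univ.filter (fun β => ¬ D.tiny β), Real.exp (θ * (XX D s β - 1 / 20)) :=
    Finset.single_le_sum (f := fun β => Real.exp (θ * (XX D s β - 1 / 20)))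
      (fun _ _ => (Real.exp_pos _).le) (Finset.mem_filter.2 ⟨Finset.mem_univ _, hβ⟩)
  have h2 : 0 ≤ ∑ i ∈ (range n).filter (fun i => s.t ≤ i),
      Real.exp (-(θ * (YY D R s i - 1 / 2))) :=
    Finset.sum_nonneg (fun _ _ => (Real.exp_pos _).le)
  unfold Phi at h
  have h3 : Real.exp (θ * (XX D s β - 1 / 20)) < 1 := by linarith
  rw [Real.exp_lt_one_iff] at h3
  have h4 : 0 < θ * (1 / 20 - XX D s β) := by linarith
  have := (mul_pos_iff_of_pos_left hθ).1 h4
  linarith

/-! ### one step, expectations -/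

section step

variable {D : Nib n X ι} {K R : ℕ} {s : NSt n X ι}

lemma y_part (hH : NHyp D K R) (hpr0 : ∀ x ∈ lst D s.t, 0 ≤ pr D s x)
    (hpr1 : ∑ x ∈ lst D s.t, pr D s x = 1) (hlog : 0 < Real.log R)
    (hys : ∀ u : X, s.t < (D.o u : ℕ) →
      ∑ x ∈ lst D s.t, pr D s x * |yt D R (stepS D R s x) u - yt D R s u|
      ≤ 40 * Real.log R *
        ∑ x ∈ lst D s.t, pr D s x * (yt D R (stepS D R s x) u - yt D R s u))
    (hyl : ∀ u : X, s.t < (D.o u : ℕ) → ∀ x ∈ lst D s.t,
      |yt D R (stepS D R s x) u - yt D R s u| ≤ 3 * (R : ℝ) ^ (-(99 / 100) : ℝ) ∧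
      ((¬ ∃ z ∈ lst D s.t, near D u z) → yt D R (stepS D R s x) u = yt D R s u))
    (θ : ℝ) (hθ : 0 ≤ θ) (h1 : θ * (K * (3 * (R : ℝ) ^ (-(99 / 100) : ℝ))) ≤ 1)
    (h2 : θ * (K * (3 * (R : ℝ) ^ (-(99 / 100) : ℝ))) * (40 * Real.log R) ≤ 1)
    (i : ℕ) (hi : s.t < i) :
    ∑ x ∈ lst D s.t, pr D s x * Real.exp (-(θ * (YY D R (stepS D R s x) i - 1 / 2))) ≤
      Real.exp (-(θ * (YY D R s i - 1 / 2))) := by
  have hou : ∀ u ∈ lst D i, s.t < (D.o u : ℕ) := fun u hu => by rw [mem_lst.1 hu]; exact hi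
  have hD : ∀ x, YY D R (stepS D R s x) i - YY D R s i =
      ∑ u ∈ lst D i, (yt D R (stepS D R s x) u - yt D R s u) := by
    intro x; unfold YY; rw [Finset.sum_sub_distrib]
  have hb : ∀ x ∈ lst D s.t, |YY D R (stepS D R s x) i - YY D R s i| ≤
      K * (3 * (R : ℝ) ^ (-(99 / 100) : ℝ)) := by
    intro x hx
    rw [hD]
    calc |∑ u ∈ lst D i, (yt D R (stepS D R s x) u - yt D R s u)|
        ≤ ∑ u ∈ lst D i, |yt D R (stepS D R s x) u - yt D R s u| :=
          Finset.abs_sum_le_sum_abs _ _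
      _ ≤ ∑ u ∈ lst D i, (if ∃ z ∈ lst D s.t, near D u z then
            3 * (R : ℝ) ^ (-(99 / 100) : ℝ) else 0) := by
          apply Finset.sum_le_sum
          intro u hu
          have := hyl u (hou u hu) x hx
          split_ifs with hc
          · exact this.1
          · rw [this.2 hc, sub_self, abs_zero]
      _ = (((lst D i).filter (fun u => ∃ z ∈ lst D s.t, near D u z)).card : ℝ) *
            (3 * (R : ℝ) ^ (-(99 / 100) : ℝ)) := by
          rw [← Finset.sum_filter, Finset.sum_const, nsmul_eq_mul]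
      _ ≤ K * (3 * (R : ℝ) ^ (-(99 / 100) : ℝ)) := by
          apply mul_le_mul_of_nonneg_right _ (by positivity)
          exact_mod_cast hH.H3 i s.t (by omega)
  have hE : ∑ x ∈ lst D s.t, pr D s x * |YY D R (stepS D R s x) i - YY D R s i| ≤
      40 * Real.log R * ∑ x ∈ lst D s.t, pr D s x * (YY D R (stepS D R s x) i - YY D R s i) := by
    calc ∑ x ∈ lst D s.t, pr D s x * |YY D R (stepS D R s x) i - YY D R s i|
        ≤ ∑ x ∈ lst D s.t, ∑ u ∈ lst D i,
            pr D s x * |yt D R (stepS D R s x) u - yt D R s u| := by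
          apply Finset.sum_le_sum
          intro x hx
          rw [hD, ← Finset.mul_sum]
          exact mul_le_mul_of_nonneg_left (Finset.abs_sum_le_sum_abs _ _) (hpr0 x hx)
      _ = ∑ u ∈ lst D i, ∑ x ∈ lst D s.t,
            pr D s x * |yt D R (stepS D R s x) u - yt D R s u| := Finset.sum_comm
      _ ≤ ∑ u ∈ lst D i, 40 * Real.log R *
            ∑ x ∈ lst D s.t, pr D s x * (yt D R (stepS D R s x) u - yt D R s u) :=
          Finset.sum_le_sum (fun u hu => hys u (hou u hu))
      _ = 40 * Real.log R * ∑ x ∈ lst D s.t, ∑ u ∈ lst D i,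
            pr D s x * (yt D R (stepS D R s x) u - yt D R s u) := by
          rw [← Finset.mul_sum, Finset.sum_comm]
      _ = _ := by
          congr 1
          apply Finset.sum_congr rfl
          intro x _
          rw [hD, Finset.mul_sum]
  have hlem := exp_lem (lst D s.t) (pr D s) (fun x => YY D R (stepS D R s x) i - YY D R s i)
    hpr0 hpr1 θ (K * (3 * (R : ℝ) ^ (-(99 / 100) : ℝ))) (40 * Real.log R) hθ hb h1 (by positivity)
    h2 hE
  calc ∑ x ∈ lst D s.t, pr D s x * Real.exp (-(θ * (YY D R (stepS D R s x) i - 1 / 2)))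
      = Real.exp (-(θ * (YY D R s i - 1 / 2))) * ∑ x ∈ lst D s.t,
          pr D s x * Real.exp (-(θ * (YY D R (stepS D R s x) i - YY D R s i))) := by
        rw [Finset.mul_sum]
        apply Finset.sum_congr rfl
        intro x _
        have : -(θ * (YY D R (stepS D R s x) i - 1 / 2)) = -(θ * (YY D R s i - 1 / 2)) +
          -(θ * (YY D R (stepS D R s x) i - YY D R s i)) := by ring
        rw [this, Real.exp_add]; ring
    _ ≤ Real.exp (-(θ * (YY D R s i - 1 / 2))) * 1 :=
        mul_le_mul_of_nonneg_left hlem (Real.exp_pos _).le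
    _ = _ := mul_one _

lemma x_part (hpr0 : ∀ x ∈ lst D s.t, 0 ≤ pr D s x)
    (hpr1 : ∑ x ∈ lst D s.t, pr D s x = 1) (hlog : 0 < Real.log R) (β : ι)
    (hx : ∃ d : X → ℝ, (∀ x ∈ lst D s.t, XX D (stepS D R s x) β - XX D s β ≤ d x) ∧
      (∀ x ∈ lst D s.t, |d x| ≤ (10 * K + 10) * (R : ℝ) ^ (-(99 / 100) : ℝ)) ∧
      ∑ x ∈ lst D s.t, pr D s x * |d x|
        ≤ 40 * Real.log R * ∑ x ∈ lst D s.t, pr D s x * (-d x))
    (θ : ℝ) (hθ : 0 ≤ θ) (h1 : θ * ((10 * K + 10) * (R : ℝ) ^ (-(99 / 100) : ℝ)) ≤ 1)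
    (h2 : θ * ((10 * K + 10) * (R : ℝ) ^ (-(99 / 100) : ℝ)) * (40 * Real.log R) ≤ 1) :
    ∑ x ∈ lst D s.t, pr D s x * Real.exp (θ * (XX D (stepS D R s x) β - 1 / 20)) ≤
      Real.exp (θ * (XX D s β - 1 / 20)) := by
  obtain ⟨d, hd1, hd2, hd3⟩ := hx
  have hlem := exp_lem (lst D s.t) (pr D s) (fun x => -d x) hpr0 hpr1 θ
    ((10 * K + 10) * (R : ℝ) ^ (-(99 / 100) : ℝ)) (40 * Real.log R) hθ
    (fun x hx => by simp only [abs_neg]; exact hd2 x hx) h1 (by positivity) h2
    (by simp only [abs_neg]; exact hd3)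
  calc ∑ x ∈ lst D s.t, pr D s x * Real.exp (θ * (XX D (stepS D R s x) β - 1 / 20))
      ≤ ∑ x ∈ lst D s.t, Real.exp (θ * (XX D s β - 1 / 20)) *
          (pr D s x * Real.exp (-(θ * -d x))) := by
        apply Finset.sum_le_sum
        intro x hx
        have h3 : Real.exp (θ * (XX D (stepS D R s x) β - 1 / 20)) ≤
            Real.exp (θ * (XX D s β - 1 / 20)) * Real.exp (-(θ * -d x)) := by
          rw [← Real.exp_add]
          apply Real.exp_le_exp.2
          have := mul_le_mul_of_nonneg_left (hd1 x hx) hθ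
          nlinarith
        calc _ ≤ pr D s x * (Real.exp (θ * (XX D s β - 1 / 20)) * Real.exp (-(θ * -d x))) :=
              mul_le_mul_of_nonneg_left h3 (hpr0 x hx)
          _ = _ := by ring
    _ = Real.exp (θ * (XX D s β - 1 / 20)) * ∑ x ∈ lst D s.t,
          pr D s x * Real.exp (-(θ * -d x)) := by rw [Finset.mul_sum]
    _ ≤ Real.exp (θ * (XX D s β - 1 / 20)) * 1 :=
        mul_le_mul_of_nonneg_left hlem (Real.exp_pos _).le
    _ = _ := mul_one _

end step

/-! ### the invariants after one step -/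

lemma chosen_step {D : Nib n X ι} {R : ℕ} {s : NSt n X ι} {x : X} (hx : x ∈ lst D s.t) (z : X) :
    chosen D (stepS D R s x) z ↔ (chosen D s z ∨ z = x) := by
  rw [mem_lst] at hx
  unfold chosen
  show ((D.o z : ℕ) < s.t + 1 ∧ (if (D.o z : ℕ) = s.t then x else s.c (D.o z)) = z) ↔ _
  constructor
  · rintro ⟨h1, h2⟩
    by_cases h : (D.o z : ℕ) = s.t
    · rw [if_pos h] at h2
      exact Or.inr h2.symm
    · rw [if_neg h] at h2
      exact Or.inl ⟨by omega, h2⟩
  · rintro (⟨h1, h2⟩ | h)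
    · refine ⟨by omega, ?_⟩
      rw [if_neg (by omega)]; exact h2
    · subst h
      refine ⟨by omega, ?_⟩
      rw [if_pos hx]

lemma inv_step {D : Nib n X ι} {K R : ℕ} {s : NSt n X ι} (hH : NHyp D K R) (hI : NInv D R s)
    (ht : s.t < n) (hR1 : 1 ≤ R) (hlog : 1 ≤ Real.log R)
    (hpr0 : ∀ x ∈ lst D s.t, 0 ≤ pr D s x) {x : X} (hx : x ∈ lst D s.t) (hwx : s.w x ≠ 0)
    {θ : ℝ} (hθ : 0 < θ) (hPhi : Phi D θ R (stepS D R s x) < 1) :
    NInv D R (kill D R (stepS D R s x)) ∧ Phi D θ R (kill D R (stepS D R s x)) < 1 := by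
  have hlog0 : 0 < Real.log R := by linarith
  have hR0 : (0 : ℝ) < R := by exact_mod_cast hR1
  have hhN : ∀ v, 0 ≤ hN D s v := fun v =>
    Finset.sum_nonneg (fun y hy => hpr0 y (Finset.mem_filter.1 hy).1)
  have heta : 0 ≤ 1 - 1 / Real.log R := by
    have : 1 / Real.log R ≤ 1 := by rw [div_le_one hlog0]; exact hlog
    linarith
  have hfac : ∀ v, 1 ≤ 1 + (1 - 1 / Real.log R) * hN D s v := fun v => by
    have := mul_nonneg heta (hhN v)
    linarith
  set s' := stepS D R s x with hs'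
  have hw' : ∀ v, s'.w v = if blk D s x v then 0 else
      s.w v * (1 + (1 - 1 / Real.log R) * hN D s v) := fun v => rfl
  have hL' : ∀ v, s'.L v = s.L v + Real.log (1 + (1 - 1 / Real.log R) * hN D s v) := fun v => rfl
  have ht' : s'.t = s.t + 1 := rfl
  have hw0 : ∀ v, 0 ≤ s'.w v := by
    intro v
    rw [hw']
    split_ifs
    · exact le_rfl
    · exact mul_nonneg (hI.w_nonneg v) (by linarith [hfac v])
  have hL0 : ∀ v, 0 ≤ s'.L v := by
    intro v
    rw [hL']
    exact add_nonneg (hI.L_nonneg v) (Real.log_nonneg (hfac v))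
  have hkt : (kill D R s').t = s.t + 1 := rfl
  have hkL : ∀ v, (kill D R s').L v = s'.L v := fun v => rfl
  have hkw : ∀ v, (kill D R s').w v ≠ 0 → GG D R s' v < 1 ∧ (kill D R s').w v = s'.w v ∧
      ¬ blk D s x v ∧ s.w v ≠ 0 ∧ s'.w v = s.w v * (1 + (1 - 1 / Real.log R) * hN D s v) := by
    intro v hv
    have h1 : (kill D R s').w v = if 1 ≤ GG D R s' v then 0 else s'.w v := rfl
    by_cases h2 : 1 ≤ GG D R s' v
    · rw [h1, if_pos h2] at hv; exact absurd rfl hv
    · rw [h1, if_neg h2] at hv ⊢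
      have h3 := hw' v
      by_cases h4 : blk D s x v
      · rw [h3, if_pos h4] at hv; exact absurd rfl hv
      · rw [if_neg h4] at h3
        refine ⟨not_le.1 h2, rfl, h4, ?_, h3⟩
        rintro h5
        rw [h3, h5, zero_mul] at hv
        exact hv rfl
  have hkeq : ∀ v, s.t + 1 ≤ (D.o v : ℕ) → (kill D R s').w v ≠ 0 →
      (kill D R s').w v = Real.exp (s'.L v) / (lst D (D.o v : ℕ)).card := by
    intro v hv hne
    obtain ⟨h1, h2, h3, h4, h5⟩ := hkw v hne
    rw [h2, h5, hI.w_eq v (by omega) h4, hL', Real.exp_add, Real.exp_log (by linarith [hfac v])]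
    ring
  have hPk := Phi_kill_le D hθ.le (R := R) hlog0 (s := s') hw0
  have hPk1 : Phi D θ R (kill D R s') < 1 := lt_of_le_of_lt hPk hPhi
  have hch : ∀ z, chosen D (kill D R s') z ↔ (chosen D s z ∨ z = x) := fun z =>
    chosen_step (R := R) hx z
  refine ⟨?_, hPk1⟩
  refine
    { w_nonneg := kill_w_nonneg hw0
      L_nonneg := fun v => hL0 v
      LB_nonneg := ?_
      w_le := ?_
      w_eq := ?_
      G_lt := ?_
      alive := ?_
      own := ?_
      free := ?_
      Ylow := fun i hi hti => low_of_Phi hθ hPk1 hi hti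
      Xup := fun β hβ => up_of_Phi hθ hPk1 hβ }
  · intro β
    show 0 ≤ s.LB β + mB D s β
    exact add_nonneg (hI.LB_nonneg β)
      (Finset.sum_nonneg (fun y hy => hpr0 y (Finset.mem_filter.1 hy).1))
  · intro v hv
    by_cases hne : (kill D R s').w v = 0
    · rw [hne]; positivity
    · obtain ⟨h1, -, -, -, -⟩ := hkw v hne
      rw [hkeq v hv hne]
      have h2 : s'.L v ≤ Real.log R / 100 := by
        unfold GG at h1
        have h3 := FN_nonneg (D := D) hw0 v
        have h4 := FT_nonneg (D := D) hw0 v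
        have h5 : (FN D s' v + s'.L v) / (Real.log R / 100) < 1 := by linarith
        rw [div_lt_one (by positivity)] at h5
        linarith
      have h6 : (R : ℝ) ≤ (lst D (D.o v : ℕ)).card := by exact_mod_cast hH.H4l (D.o v)
      calc Real.exp (s'.L v) / (lst D (D.o v : ℕ)).card ≤ Real.exp (Real.log R / 100) / R :=
            div_le_div₀ (Real.exp_pos _).le (Real.exp_le_exp.2 h2) hR0 h6
        _ = (R : ℝ) ^ (-(99 / 100) : ℝ) := by
            rw [Real.rpow_def_of_pos hR0]
            nth_rw 2 [← Real.exp_log hR0]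
            rw [← Real.exp_sub]
            congr 1
            ring
  · intro v hv hne
    exact hkeq v hv hne
  · intro v hv hne
    exact lt_of_le_of_lt (GG_kill_le hlog0 hw0 v) (hkw v hne).1
  · intro v hv hne β e he htop
    obtain ⟨-, -, h3, h4, -⟩ := hkw v hne
    by_contra hcon
    push Not at hcon
    obtain ⟨z₀, hz₀, hz₀v, hz₀c⟩ := hI.alive v (by rw [hkt] at hv; omega) h4 β e he htop
    have h5 := hcon z₀ hz₀ hz₀v
    rw [hch] at h5
    have h6 : z₀ = x := h5.resolve_left hz₀c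
    subst h6
    apply h3
    have h7 : ∀ z ∈ e, z ≠ v → z ≠ z₀ → chosen D s z := by
      intro z hz hzv hzx
      have := hcon z hz hzv
      rw [hch] at this
      exact this.resolve_right hzx
    by_cases hβ : D.tiny β
    · exact Or.inr ⟨β, hβ, e, he, htop, hz₀, hz₀v, h7⟩
    · exact Or.inl ⟨β, hβ, e, he, htop, hz₀, hz₀v, h7⟩
  · intro i hi
    show D.o (if (i : ℕ) = s.t then x else s.c i) = i
    have hi' : (i : ℕ) < s.t + 1 := hi
    by_cases h : (i : ℕ) = s.t
    · rw [if_pos h]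
      apply Fin.ext
      rw [mem_lst.1 hx, h]
    · rw [if_neg h]
      exact hI.own i (by omega)
  · intro β e he
    by_contra hcon
    push Not at hcon
    obtain ⟨z₀, hz₀, hz₀c⟩ := hI.free β e he
    have h5 := hcon z₀ hz₀
    rw [hch] at h5
    have h6 : z₀ = x := h5.resolve_left hz₀c
    subst h6
    have h7 : ∀ z ∈ e, z ≠ z₀ → chosen D s z := by
      intro z hz hzx
      have := hcon z hz
      rw [hch] at this
      exact this.resolve_right hzx
    have htop : topc D z₀ e := by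
      refine ⟨hz₀, fun v hv hvz => ?_⟩
      have := (h7 v hv hvz).1
      rw [Fin.lt_def, mem_lst.1 hx]
      exact this
    obtain ⟨z, hz, hzx, hzc⟩ := hI.alive z₀ (by rw [mem_lst.1 hx]) hwx β e he htop
    exact hzc (h7 z hz hzx)

/-! ### the start -/

lemma start {D : Nib n X ι} {K R : ℕ} (hH : NHyp D K R) (hR1 : 1 ≤ R) (hlog : 1 ≤ Real.log R) :
    ∃ s : NSt n X ι, s.t = 0 ∧ NInv D R s ∧ Phi D (Real.sqrt R) R s < 1 := by
  have hR0 : (0 : ℝ) < R := by exact_mod_cast hR1
  have hR1' : (1 : ℝ) ≤ R := by exact_mod_cast hR1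
  have hlog0 : 0 < Real.log R := by linarith
  have hne : ∀ i : Fin n, (lst D i).Nonempty := fun i =>
    Finset.card_pos.1 (lt_of_lt_of_le hR1 (hH.H4l i))
  choose c hc using hne
  have hcard : ∀ v : X, (R : ℝ) ≤ (lst D (D.o v : ℕ)).card := fun v => by
    exact_mod_cast hH.H4l (D.o v)
  let s : NSt n X ι :=
    { t := 0, c := c, w := fun v => 1 / ((lst D (D.o v : ℕ)).card : ℝ), L := fun _ => 0,
      LB := fun _ => 0 }
  have hw : ∀ v, s.w v = 1 / ((lst D (D.o v : ℕ)).card : ℝ) := fun _ => rfl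
  have hw0 : ∀ v, 0 ≤ s.w v := fun v => by rw [hw]; positivity
  have hw1 : ∀ v, s.w v ≤ 1 / R := fun v => by
    rw [hw]; exact one_div_le_one_div_of_le hR0 (hcard v)
  have hhat : ∀ v, hat D s v ≤ 16 / R := by
    intro v
    unfold hat
    have : ¬ ((D.o v : ℕ) < s.t) := Nat.not_lt_zero _
    rw [if_neg this]
    have := hw1 v
    calc 16 * s.w v ≤ 16 * (1 / R) := by linarith
      _ = 16 / R := by ring
  have heng : ∀ β, ∀ e ∈ D.conf β, ∀ u, topc D u e → eng D s β e u ≤ 4096 / (R : ℝ) ^ 3 := by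
    intro β e he u hu
    unfold eng
    have h1 : (if D.tiny β then (1 : ℝ) else Real.exp (-5 * s.LB β)) = 1 := by
      show (if D.tiny β then (1 : ℝ) else Real.exp (-5 * 0)) = 1
      simp
    rw [h1, one_mul]
    calc ∏ v ∈ e.erase u, hat D s v ≤ ∏ _v ∈ e.erase u, (16 / (R : ℝ)) :=
          Finset.prod_le_prod (fun v _ => hat_nonneg hw0 v) (fun v _ => hhat v)
      _ = (16 / (R : ℝ)) ^ 3 := by
          rw [Finset.prod_const, Finset.card_erase_of_mem hu.1, hH.conf_card β e he]
      _ = 4096 / (R : ℝ) ^ 3 := by rw [div_pow]; norm_num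
  have hFsum : ∀ (S : Finset ι) (u : X), ∑ β ∈ S,
      ∑ e ∈ (D.conf β).filter (fun e => topc D u e), eng D s β e u ≤
      ((∑ β ∈ S, ((D.conf β).filter (fun e => topc D u e)).card : ℕ) : ℝ) *
        (4096 / (R : ℝ) ^ 3) := by
    intro S u
    push_cast
    rw [Finset.sum_mul]
    apply Finset.sum_le_sum
    intro β _
    rw [← nsmul_eq_mul, ← Finset.sum_const]
    apply Finset.sum_le_sum
    intro e he
    rw [Finset.mem_filter] at he
    exact heng β e he.1 u he.2
  have hR3 : (0 : ℝ) < (R : ℝ) ^ 3 := by positivity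
  have hFN : ∀ u, FN D s u ≤ Real.log R / 800 := by
    intro u
    unfold FN
    refine (hFsum _ u).trans ?_
    calc _ ≤ ((1 / 3276800) * (R : ℝ) ^ 3 * Real.log R) * (4096 / (R : ℝ) ^ 3) :=
          mul_le_mul_of_nonneg_right (hH.H6 u) (by positivity)
      _ = Real.log R / 800 := by field_simp; norm_num
  have hFT : ∀ u, FT D s u ≤ 1 / 8 := by
    intro u
    unfold FT
    refine (hFsum _ u).trans ?_
    calc _ ≤ ((1 / 32768) * (R : ℝ) ^ 3) * (4096 / (R : ℝ) ^ 3) :=
          mul_le_mul_of_nonneg_right (hH.H7 u) (by positivity)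
      _ = 1 / 8 := by field_simp; norm_num
  have hGG : ∀ u, GG D R s u ≤ 1 / 4 := by
    intro u
    unfold GG
    have h1 : s.L u = 0 := rfl
    rw [h1, add_zero]
    have h2 : FN D s u / (Real.log R / 100) ≤ 1 / 8 := by
      rw [div_le_iff₀ (by positivity)]
      have := hFN u
      linarith
    have := hFT u
    linarith
  have hYY : ∀ i : ℕ, i < n → 3 / 4 ≤ YY D R s i := by
    intro i hi
    have hcpos : (0 : ℝ) < (lst D i).card := by
      have : R ≤ (lst D i).card := hH.H4l ⟨i, hi⟩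
      have : (R : ℝ) ≤ (lst D i).card := by exact_mod_cast this
      linarith
    unfold YY
    calc (3 : ℝ) / 4 = ∑ u ∈ lst D i, (1 / ((lst D i).card : ℝ)) * (3 / 4) := by
          rw [Finset.sum_const, nsmul_eq_mul]
          field_simp
      _ ≤ ∑ u ∈ lst D i, yt D R s u := by
          apply Finset.sum_le_sum
          intro u hu
          unfold yt
          rw [hw, mem_lst.1 hu]
          apply mul_le_mul_of_nonneg_left _ (by positivity)
          exact le_max_of_le_right (by have := hGG u; linarith)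
  have hXX : ∀ β, ¬ D.tiny β → XX D s β ≤ 1 / 40 := by
    intro β hβ
    unfold XX
    have h1 : s.LB β = 0 := rfl
    rw [h1, neg_zero, Real.exp_zero, one_mul, sub_self, mul_zero, add_zero]
    calc ∑ v ∈ (D.B β).filter (fun v => s.t ≤ (D.o v : ℕ)), s.w v ≤
        ∑ v ∈ (D.B β).filter (fun v => s.t ≤ (D.o v : ℕ)), (1 / (R : ℝ)) :=
          Finset.sum_le_sum (fun v _ => hw1 v)
      _ = (((D.B β).filter (fun v => s.t ≤ (D.o v : ℕ))).card : ℝ) * (1 / R) := by
          rw [Finset.sum_const, nsmul_eq_mul]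
      _ ≤ ((D.B β).card : ℝ) * (1 / R) := by
          apply mul_le_mul_of_nonneg_right _ (by positivity)
          exact_mod_cast Finset.card_filter_le _ _
      _ ≤ 1 / 40 := by
          have h2 : (40 : ℝ) * (D.B β).card ≤ R := by exact_mod_cast hH.H5 β hβ
          rw [mul_one_div, div_le_div_iff₀ hR0 (by norm_num)]
          linarith
  have hθ : 0 < Real.sqrt R := Real.sqrt_pos.2 hR0
  have hPhi : Phi D (Real.sqrt R) R s < 1 := by
    unfold Phi
    have e1 : ∑ i ∈ (range n).filter (fun i => s.t ≤ i),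
        Real.exp (-(Real.sqrt R * (YY D R s i - 1 / 2))) ≤ n * Real.exp (-(Real.sqrt R / 40)) := by
      calc _ ≤ ∑ i ∈ (range n).filter (fun i => s.t ≤ i), Real.exp (-(Real.sqrt R / 40)) := by
            apply Finset.sum_le_sum
            intro i hi
            rw [Finset.mem_filter, Finset.mem_range] at hi
            apply Real.exp_le_exp.2
            have := hYY i hi.1
            nlinarith
        _ = (((range n).filter (fun i => s.t ≤ i)).card : ℝ) * Real.exp (-(Real.sqrt R / 40)) := by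
            rw [Finset.sum_const, nsmul_eq_mul]
        _ ≤ n * Real.exp (-(Real.sqrt R / 40)) := by
            apply mul_le_mul_of_nonneg_right _ (Real.exp_pos _).le
            have := Finset.card_filter_le (range n) (fun i => s.t ≤ i)
            rw [Finset.card_range] at this
            exact_mod_cast this
    have e2 : ∑ β ∈ univ.filter (fun β => ¬ D.tiny β),
        Real.exp (Real.sqrt R * (XX D s β - 1 / 20)) ≤
        Fintype.card ι * Real.exp (-(Real.sqrt R / 40)) := by
      calc _ ≤ ∑ β ∈ univ.filter (fun β => ¬ D.tiny β), Real.exp (-(Real.sqrt R / 40)) := by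
            apply Finset.sum_le_sum
            intro β hβ
            rw [Finset.mem_filter] at hβ
            apply Real.exp_le_exp.2
            have := hXX β hβ.2
            nlinarith
        _ = ((univ.filter (fun β => ¬ D.tiny β)).card : ℝ) * Real.exp (-(Real.sqrt R / 40)) := by
            rw [Finset.sum_const, nsmul_eq_mul]
        _ ≤ Fintype.card ι * Real.exp (-(Real.sqrt R / 40)) := by
            apply mul_le_mul_of_nonneg_right _ (Real.exp_pos _).le
            have := Finset.card_filter_le (univ : Finset ι) (fun β => ¬ D.tiny β)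
            rw [Finset.card_univ] at this
            exact_mod_cast this
    have e3 : ((n : ℝ) + Fintype.card ι) * Real.exp (-(Real.sqrt R / 40)) < 1 := by
      have h3 := hH.H8
      have h4 : Real.exp (Real.sqrt R / 40) * Real.exp (-(Real.sqrt R / 40)) = 1 := by
        rw [← Real.exp_add]; simp
      calc _ < Real.exp (Real.sqrt R / 40) * Real.exp (-(Real.sqrt R / 40)) :=
            mul_lt_mul_of_pos_right h3 (Real.exp_pos _)
        _ = 1 := h4
    calc _ ≤ n * Real.exp (-(Real.sqrt R / 40)) +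
        Fintype.card ι * Real.exp (-(Real.sqrt R / 40)) := add_le_add e1 e2
      _ = ((n : ℝ) + Fintype.card ι) * Real.exp (-(Real.sqrt R / 40)) := by ring
      _ < 1 := e3
  have hnc : ∀ z, ¬ chosen D s z := fun z h => absurd h.1 (Nat.not_lt_zero _)
  refine ⟨s, rfl, ?_, hPhi⟩
  refine
    { w_nonneg := hw0
      L_nonneg := fun _ => le_rfl
      LB_nonneg := fun _ => le_rfl
      w_le := ?_
      w_eq := ?_
      G_lt := fun v _ _ => lt_of_le_of_lt (hGG v) (by norm_num)
      alive := ?_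
      own := fun i hi => absurd hi (Nat.not_lt_zero _)
      free := ?_
      Ylow := fun i hi hti => low_of_Phi hθ hPhi hi hti
      Xup := fun β hβ => up_of_Phi hθ hPhi hβ }
  · intro v _
    refine (hw1 v).trans ?_
    rw [one_div, ← Real.rpow_neg_one]
    exact Real.rpow_le_rpow_of_exponent_le hR1' (by norm_num)
  · intro v _ _
    rw [hw]
    show _ = Real.exp 0 / _
    rw [Real.exp_zero]
  · intro v _ _ β e he _
    have h1 := hH.conf_card β e he
    have h2 : 0 < (e.erase v).card := by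
      have := Finset.pred_card_le_card_erase (s := e) (a := v)
      omega
    obtain ⟨z, hz⟩ := Finset.card_pos.1 h2
    rw [Finset.mem_erase] at hz
    exact ⟨z, hz.2, hz.1, hnc z⟩
  · intro β e he
    have h1 := hH.conf_card β e he
    obtain ⟨z, hz⟩ := Finset.card_pos.1 (by omega : 0 < e.card)
    exact ⟨z, hz, hnc z⟩

/-! ### the theorem -/

theorem nmain : N_elem → N_ystep → N_yloc → N_xstep → N_main := by
  intro hel hys hyl hxs K
  obtain ⟨R1, h1⟩ := hel K
  obtain ⟨R2, h2⟩ := hys K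
  obtain ⟨R3, h3⟩ := hyl K
  obtain ⟨R4, h4⟩ := hxs K
  -- the numerical conditions
  have hlim : Tendsto (fun x : ℝ => 40 * (10 * (K : ℝ) + 10) * (Real.log x / x ^ (49 / 100 : ℝ)))
      atTop (𝓝 0) := by
    have h5 : Tendsto (fun x : ℝ => Real.log x / x ^ (49 / 100 : ℝ)) atTop (𝓝 0) :=
      (isLittleO_log_rpow_atTop (by norm_num : (0 : ℝ) < 49 / 100)).tendsto_div_nhds_zero
    have := h5.const_mul (40 * (10 * (K : ℝ) + 10))
    rwa [mul_zero] at this
  have hev : ∀ᶠ x : ℝ in atTop, 40 * (10 * (K : ℝ) + 10) * (Real.log x / x ^ (49 / 100 : ℝ)) ≤ 1 ∧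
      1 ≤ Real.log x ∧ 1 ≤ x :=
    (hlim.eventually_le_const one_pos).and
      ((Real.tendsto_log_atTop.eventually_ge_atTop 1).and (eventually_ge_atTop 1))
  obtain ⟨R5, h5⟩ := (tendsto_natCast_atTop_atTop.eventually hev).exists_forall_of_atTop
  refine ⟨max (max R1 R2) (max (max R3 R4) R5), fun R hR n X ι _ _ D hH => ?_⟩
  have hR1 : R1 ≤ R := by omega
  have hR2 : R2 ≤ R := by omega
  have hR3 : R3 ≤ R := by omega
  have hR4 : R4 ≤ R := by omega
  obtain ⟨hc, hlog, hRge⟩ := h5 R (by omega)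
  have hRnat : 1 ≤ R := by exact_mod_cast hRge
  have hR0 : (0 : ℝ) < R := by linarith
  have hlog0 : 0 < Real.log R := by linarith
  have hθ : 0 < Real.sqrt R := Real.sqrt_pos.2 hR0
  set q : ℝ := (R : ℝ) ^ (-(99 / 100) : ℝ) with hq
  have hq0 : 0 < q := by positivity
  have hcx : Real.sqrt R * ((10 * K + 10) * q) * (40 * Real.log R) ≤ 1 := by
    have e1 : Real.sqrt R * q = ((R : ℝ) ^ (49 / 100 : ℝ))⁻¹ := by
      rw [hq, Real.sqrt_eq_rpow, ← Real.rpow_add hR0, ← Real.rpow_neg hR0.le]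
      norm_num
    calc _ = 40 * (10 * (K : ℝ) + 10) * (Real.log R * (Real.sqrt R * q)) := by ring
      _ = 40 * (10 * (K : ℝ) + 10) * (Real.log R / (R : ℝ) ^ (49 / 100 : ℝ)) := by
          rw [e1, ← div_eq_mul_inv]
      _ ≤ 1 := hc
  have hcx1 : Real.sqrt R * ((10 * K + 10) * q) ≤ 1 := by
    refine le_trans ?_ hcx
    have h6 : 0 ≤ Real.sqrt R * ((10 * K + 10) * q) := by positivity
    nlinarith
  have hcy : Real.sqrt R * (K * (3 * q)) * (40 * Real.log R) ≤ 1 := by
    refine le_trans ?_ hcx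
    have : (K : ℝ) * (3 * q) ≤ (10 * K + 10) * q := by
      have hK : (0 : ℝ) ≤ K := Nat.cast_nonneg K
      nlinarith
    gcongr
  have hcy1 : Real.sqrt R * (K * (3 * q)) ≤ 1 := by
    refine le_trans ?_ hcx1
    have : (K : ℝ) * (3 * q) ≤ (10 * K + 10) * q := by
      have hK : (0 : ℝ) ≤ K := Nat.cast_nonneg K
      nlinarith
    gcongr
  have hclaim : ∀ t : ℕ, t ≤ n → ∃ s : NSt n X ι, s.t = t ∧ NInv D R s ∧
      Phi D (Real.sqrt R) R s < 1 := by
    intro t
    induction t with
    | zero => intro _; exact start hH hRnat hlog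
    | succ t ih =>
      intro htn
      obtain ⟨s, hst, hI, hP⟩ := ih (by omega)
      have hsn : s.t < n := by omega
      obtain ⟨e1, e2, e3, e4, e5, e6⟩ := h1 R hR1 n X ι D hH s hI hsn
      have hpr0 : ∀ x ∈ lst D s.t, 0 ≤ pr D s x := fun x hx => (e3 x hx).1
      -- the expectation
      have hexp : ∑ x ∈ lst D s.t, pr D s x * Phi D (Real.sqrt R) R (stepS D R s x) ≤
          Phi D (Real.sqrt R) R s := by
        have hfil : ∀ x, (range n).filter (fun i => (stepS D R s x).t ≤ i) =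
            (range n).filter (fun i => s.t < i) := fun x => rfl
        unfold Phi
        simp_rw [mul_add, Finset.mul_sum]
        rw [Finset.sum_add_distrib]
        apply add_le_add
        · calc ∑ x ∈ lst D s.t, ∑ i ∈ (range n).filter (fun i => (stepS D R s x).t ≤ i),
              pr D s x * Real.exp (-(Real.sqrt R * (YY D R (stepS D R s x) i - 1 / 2)))
              = ∑ x ∈ lst D s.t, ∑ i ∈ (range n).filter (fun i => s.t < i),
              pr D s x * Real.exp (-(Real.sqrt R * (YY D R (stepS D R s x) i - 1 / 2))) := rfl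
            _ = ∑ i ∈ (range n).filter (fun i => s.t < i), ∑ x ∈ lst D s.t,
              pr D s x * Real.exp (-(Real.sqrt R * (YY D R (stepS D R s x) i - 1 / 2))) :=
                Finset.sum_comm
            _ ≤ ∑ i ∈ (range n).filter (fun i => s.t < i),
                Real.exp (-(Real.sqrt R * (YY D R s i - 1 / 2))) := by
                apply Finset.sum_le_sum
                intro i hi
                rw [Finset.mem_filter] at hi
                exact y_part hH hpr0 e2 hlog0 (fun u hu => h2 R hR2 n X ι D hH s hI hsn u hu)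
                  (fun u hu => h3 R hR3 n X ι D hH s hI hsn u hu) _ hθ.le hcy1 hcy i hi.2
            _ ≤ ∑ i ∈ (range n).filter (fun i => s.t ≤ i),
                Real.exp (-(Real.sqrt R * (YY D R s i - 1 / 2))) := by
                apply Finset.sum_le_sum_of_subset_of_nonneg
                · intro i hi
                  rw [Finset.mem_filter] at hi ⊢
                  exact ⟨hi.1, hi.2.le⟩
                · intro _ _ _; exact (Real.exp_pos _).le
        · rw [Finset.sum_comm]
          apply Finset.sum_le_sum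
          intro β hβ
          rw [Finset.mem_filter] at hβ
          exact x_part hpr0 e2 hlog0 β (h4 R hR4 n X ι D hH s hI hsn β hβ.2) _ hθ.le hcx1 hcx
      -- choice
      have hex : ∃ x ∈ lst D s.t, 0 < pr D s x ∧
          Phi D (Real.sqrt R) R (stepS D R s x) ≤ Phi D (Real.sqrt R) R s := by
        by_contra hcon
        push Not at hcon
        have h6 : ∃ x ∈ lst D s.t, 0 < pr D s x := by
          by_contra h7
          push Not at h7
          have : ∑ x ∈ lst D s.t, pr D s x ≤ 0 := Finset.sum_nonpos h7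
          linarith
        have h8 : ∑ x ∈ lst D s.t, pr D s x * Phi D (Real.sqrt R) R s <
            ∑ x ∈ lst D s.t, pr D s x * Phi D (Real.sqrt R) R (stepS D R s x) := by
          apply Finset.sum_lt_sum
          · intro x hx
            rcases (hpr0 x hx).eq_or_lt with h9 | h9
            · rw [← h9]; simp
            · exact mul_le_mul_of_nonneg_left (hcon x hx h9).le h9.le
          · obtain ⟨x, hx, hxp⟩ := h6
            exact ⟨x, hx, mul_lt_mul_of_pos_left (hcon x hx hxp) hxp⟩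
        rw [← Finset.sum_mul, e2, one_mul] at h8
        linarith
      obtain ⟨x, hx, hxp, hxP⟩ := hex
      have hwx : s.w x ≠ 0 := by
        intro h6
        unfold pr at hxp
        rw [h6, zero_div] at hxp
        exact lt_irrefl _ hxp
      have := inv_step hH hI hsn hRnat hlog hpr0 hx hwx hθ (lt_of_le_of_lt hxP hP)
      refine ⟨kill D R (stepS D R s x), ?_, this.1, this.2⟩
      show s.t + 1 = t + 1
      rw [hst]
  obtain ⟨s, hst, hI, -⟩ := hclaim n le_rfl
  refine ⟨s.c, fun i => hI.own i (by rw [hst]; exact i.2), fun β e he => ?_⟩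
  obtain ⟨z, hz, hzc⟩ := hI.free β e he
  refine ⟨z, hz, fun h => hzc ⟨by rw [hst]; exact (D.o z).2, h⟩⟩

end

end Pool.Agent.TH384.MP325_NM
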